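import Pool.Agent.H251.W16

/-!
# MP_064b94_an, Q1: `X**` WCG does not imply `X` WCG

There is a (real) Banach space `X` which is not weakly compactly generated while its bidual
`X**` is weakly compactly generated.

Sketch.  `Z` is the James tree space over the tree of finite words in the alphabet
`A = ℕ ⊕ (ℕ → ℝ)`.  For `n : ℕ` and `g : ℕ → ℝ` a branch `br n g` of the tree runs through the
node `par n g` (which encodes `(n, g n)`), then through the letter `g`, then through `0,0,0,…`.
`X = ⋂ ker θ_{n,g}`, where
`θ_{n,g}(z) = lim z(br n g) - z(par n g) - 2^{-n} z([g])`.

* `Z**` is WCG: it is generated by the canonical images of the node vectors and by the branch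
  functionals `f ↦ lim_k f (e_{b|k})` on `Z*`.
* `X**` is a quotient (indeed complemented subspace) of `Z**`: the functionals
  `θ_i` are biorthogonal to the branch functionals of the bidual.
* `X` is not WCG: a weakly compact generating set `K` would, by a Baire category argument,
  produce a cone of the tree in which elements of `K` jump by a fixed amount above every node,
  contradicting weak compactness by a fusion argument.
-/

namespace Pool.Agent.Results.MP_064b94_an.BidualWCG

/-- `E` is weakly compactly generated: some weakly compact subset of `E` has closed linear span
equal to `E`. -/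
def WCG (E : Type) [NormedAddCommGroup E] [NormedSpace ℝ E] : Prop :=
  ∃ K : Set E, IsCompact (toWeakSpace ℝ E '' K) ∧ (Submodule.span ℝ K).topologicalClosure = ⊤

/-- There is a Banach space which is not WCG although its bidual is WCG. -/
theorem result : ∃ (X : Type) (_ : NormedAddCommGroup X) (_ : NormedSpace ℝ X)
    (_ : CompleteSpace X), ¬ WCG X ∧ WCG (StrongDual ℝ (StrongDual ℝ X)) :=
  WCGBidual.main

end Pool.Agent.Results.MP_064b94_an.BidualWCG
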